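import Pool.Agent.Lib.MP_226ef1_lc.U.IfaceM

/-!
# TSWF: the type system of a rule system is well-formed
-/

set_option autoImplicit false

namespace Pool.Agent.Lib.MP_226ef1_lc.U.H72

theorem t11_mkTy (a b c d : ℕ) : t11 (mkTy a b c d) = a := by simp [t11, mkTy]
theorem t12_mkTy (a b c d : ℕ) : t12 (mkTy a b c d) = b := by simp [t12, mkTy]
theorem t21_mkTy (a b c d : ℕ) : t21 (mkTy a b c d) = c := by simp [t21, mkTy]
theorem t22_mkTy (a b c d : ℕ) : t22 (mkTy a b c d) = d := by simp [t22, mkTy]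

theorem mkTy_t (k : ℕ) : mkTy (t11 k) (t12 k) (t21 k) (t22 k) = k := by
  simp [t11, t12, t21, t22, mkTy]

theorem sq_ge {a N : ℕ} (h : a < N) : a < sq N := by
  unfold sq
  nlinarith

theorem pair_lt_sq {a b N : ℕ} (ha : a < N) (hb : b < N) : Nat.pair a b < sq N := by
  refine lt_of_lt_of_le (Nat.pair_lt_max_add_one_sq a b) ?_
  have h : max a b + 1 ≤ N := by
    have := max_lt ha hb
    omega
  unfold sq
  calc (max a b + 1) ^ 2 = (max a b + 1) * (max a b + 1) := by ring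
    _ ≤ N * N := Nat.mul_le_mul h h

theorem entry_lt {m d N : ℕ} (h : inE m d) (h6 : 6 ≤ N) (hm : m ≤ N) :
    d < sq (sq (sq (sq N))) := by
  obtain ⟨h1, h2, h3, h4⟩ := h
  have c0 : d.unpair.2.unpair.2.unpair.1.unpair.1 < N := lt_of_lt_of_le (h4 0 (by omega)) h6
  have c1 : d.unpair.2.unpair.2.unpair.1.unpair.2 < N := lt_of_lt_of_le (h4 1 (by omega)) h6
  have c2 : d.unpair.2.unpair.2.unpair.2.unpair.1 < N := lt_of_lt_of_le (h4 2 (by omega)) h6
  have c3 : d.unpair.2.unpair.2.unpair.2.unpair.2 < N := lt_of_lt_of_le (h4 3 (by omega)) h6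
  have e1 : d.unpair.1.unpair.1 < N := lt_of_lt_of_le h1 (by omega)
  have e2 : d.unpair.1.unpair.2 < N := lt_of_lt_of_le h2 (by omega)
  have e3 : d.unpair.2.unpair.1 < N := lt_of_lt_of_le h3 hm
  have p1 := pair_lt_sq c0 c1
  have p2 := pair_lt_sq c2 c3
  rw [Nat.pair_unpair] at p1 p2
  have p3 := pair_lt_sq p1 p2
  rw [Nat.pair_unpair] at p3
  have p4 := pair_lt_sq (sq_ge (sq_ge e3)) p3
  rw [Nat.pair_unpair] at p4
  have p5 := pair_lt_sq e1 e2
  rw [Nat.pair_unpair] at p5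
  have p6 := pair_lt_sq (sq_ge (sq_ge p5)) p4
  rwa [Nat.pair_unpair] at p6

theorem inJ_iff (qs qh : ℕ) (R : List (ℕ × ℕ × ℕ)) (k : ℕ) :
    (tsR qs qh R).inJ k = true ↔ inTy R.length k := by
  simp only [tsR, decide_eq_true_eq]

theorem star_eq (qs qh : ℕ) (R : List (ℕ × ℕ × ℕ)) (k : ℕ) :
    (tsR qs qh R).star k = mkTy (t22 k) (t21 k) (t12 k) (t11 k) := rfl

theorem bound_eq (qs qh : ℕ) (R : List (ℕ × ℕ × ℕ)) :
    (tsR qs qh R).bound = sq (sq (sq (sq (sq (sq (6 + R.length)))))) := rfl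

theorem tswf : TswfStatement := by
  intro qs qh R
  refine ⟨?_, ?_, ?_⟩
  · intro k hk
    obtain ⟨h1, h2, h3, h4, -⟩ := (inJ_iff qs qh R k).1 hk
    rw [bound_eq]
    have hb : ∀ d, inE R.length d → d < sq (sq (sq (sq (6 + R.length)))) := fun d hd =>
      entry_lt hd (by omega) (by omega)
    have p1 := pair_lt_sq (hb _ h1) (hb _ h2)
    have p2 := pair_lt_sq (hb _ h3) (hb _ h4)
    have p3 := pair_lt_sq p1 p2
    have e : Nat.pair (Nat.pair (t11 k) (t12 k)) (Nat.pair (t21 k) (t22 k)) = k := mkTy_t k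
    rw [e] at p3
    exact p3
  · intro k hk
    obtain ⟨h1, h2, h3, h4, h5, h6, h7, h8, h9⟩ := (inJ_iff qs qh R k).1 hk
    rw [inJ_iff, star_eq]
    unfold inTy
    rw [t11_mkTy, t12_mkTy, t21_mkTy, t22_mkTy]
    exact ⟨h4, h3, h2, h1, h6, h5, h8, h7, fun h => h9 ⟨h.2, h.1⟩⟩
  · intro k _
    rw [star_eq, star_eq, t11_mkTy, t12_mkTy, t21_mkTy, t22_mkTy]
    exact mkTy_t k

end Pool.Agent.Lib.MP_226ef1_lc.U.H72
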